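import Pool.Agent.Helper84.TL.Defs

/-!
# Project TL, module TL-C: the weights of a random order
-/

set_option autoImplicit false

namespace Pool.Agent.Helper84.TL

open Finset Pool.Agent.Lead.TB

theorem beta_cont (k m : ℕ) (c : ℝ) : Continuous fun τ : ℝ => τ ^ k * (1 - τ) ^ m * c := by
  fun_prop

theorem beta_int (k m : ℕ) : ∫ τ in (0 : ℝ)..1, τ ^ k * (1 - τ) ^ m =
    ((k.factorial : ℝ) * m.factorial) / (k + m + 1).factorial := by
  induction m generalizing k with
  | zero =>
    simp only [pow_zero, mul_one, integral_pow, Nat.factorial_zero, Nat.cast_one, add_zero,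
      Nat.factorial_succ, Nat.cast_mul, Nat.cast_add]
    have h : (k.factorial : ℝ) ≠ 0 := by exact_mod_cast k.factorial_ne_zero
    have h2 : ((k : ℝ) + 1) ≠ 0 := by positivity
    field_simp
    simp
  | succ m ih =>
    have e : ∀ τ : ℝ, τ ^ k * (1 - τ) ^ (m + 1) =
        τ ^ k * (1 - τ) ^ m - τ ^ (k + 1) * (1 - τ) ^ m := by
      intro τ
      ring
    simp only [e]
    rw [intervalIntegral.integral_sub (by apply Continuous.intervalIntegrable; fun_prop)
      (by apply Continuous.intervalIntegrable; fun_prop), ih, ih]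
    have e1 : k + 1 + m + 1 = (k + m + 1) + 1 := by ring
    have e2 : k + (m + 1) + 1 = (k + m + 1) + 1 := by ring
    rw [e1, e2, Nat.factorial_succ (k + m + 1), Nat.factorial_succ k, Nat.factorial_succ m]
    have h : ((k + m + 1).factorial : ℝ) ≠ 0 := by exact_mod_cast (k + m + 1).factorial_ne_zero
    push_cast
    field_simp
    ring

section C

variable {α : Type} [DecidableEq α]

theorem beta_insert {x : α} {X : Finset α} (hx : x ∉ X) (τ : ℝ) (f : Finset α → ℝ) :
    Eb (insert x X) τ f = τ * Eb X τ (fun A => f (insert x A)) + (1 - τ) * Eb X τ f := by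
  unfold Eb
  rw [sum_powerset_insert hx, card_insert_of_notMem hx, mul_sum, mul_sum, add_comm]
  congr 1
  · refine sum_congr rfl fun A hA => ?_
    have h1 : x ∉ A := fun h => hx (mem_powerset.1 hA h)
    rw [card_insert_of_notMem h1, Nat.add_sub_add_right]
    ring
  · refine sum_congr rfl fun A hA => ?_
    have h1 : A.card ≤ X.card := card_le_card (mem_powerset.1 hA)
    rw [Nat.sub_add_comm h1]
    ring

theorem beta_inter {X Y : Finset α} (hY : Y ⊆ X) (τ : ℝ) (f : Finset α → ℝ) :
    Eb X τ (fun A => f (A ∩ Y)) = Eb Y τ f := by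
  have key : ∀ Z : Finset α, Disjoint Y Z → Eb (Y ∪ Z) τ (fun A => f (A ∩ Y)) = Eb Y τ f := by
    intro Z
    induction Z using Finset.induction_on with
    | empty =>
      intro _
      rw [union_empty]
      unfold Eb
      refine sum_congr rfl fun A hA => ?_
      simp only [inter_eq_left.2 (mem_powerset.1 hA)]
    | insert z Z hz ih =>
      intro hd
      rw [disjoint_insert_right] at hd
      have h1 : z ∉ Y ∪ Z := by
        rw [mem_union]
        exact not_or.2 ⟨hd.1, hz⟩
      have h2 : ∀ A : Finset α, insert z A ∩ Y = A ∩ Y := fun A => insert_inter_of_notMem hd.1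
      rw [union_insert, beta_insert h1]
      simp only [h2]
      rw [ih hd.2]
      ring
  have h := key (X \ Y) disjoint_sdiff
  rwa [union_sdiff_of_subset hY] at h

theorem beta_card (X : Finset α) (τ : ℝ) (f : ℕ → ℝ) :
    Eb X τ (fun A => f A.card) =
      ∑ k ∈ range (X.card + 1), (X.card.choose k : ℝ) * τ ^ k * (1 - τ) ^ (X.card - k) * f k := by
  unfold Eb
  rw [sum_powerset_apply_card fun k => τ ^ k * (1 - τ) ^ (X.card - k) * f k]
  refine sum_congr rfl fun k _ => ?_
  rw [nsmul_eq_mul]
  ring

theorem wt_int (X : Finset α) (f : Finset α → ℝ) :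
    ∑ A ∈ X.powerset, wt (X.card + 1) A.card * f A = ∫ τ in (0 : ℝ)..1, Eb X τ f := by
  unfold Eb
  rw [intervalIntegral.integral_finsetSum fun A _ => (beta_cont _ _ _).intervalIntegrable _ _]
  refine sum_congr rfl fun A hA => ?_
  rw [intervalIntegral.integral_mul_const, beta_int]
  have h : A.card ≤ X.card := card_le_card (mem_powerset.1 hA)
  unfold wt
  rw [Nat.add_sub_cancel, Nat.add_sub_cancel' h]

theorem wt_rank {X Y : Finset α} (hY : Y ⊆ X) (f : ℕ → ℝ) :
    ∑ A ∈ X.powerset, wt (X.card + 1) A.card * f (A ∩ Y).card =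
      (1 / ((Y.card : ℝ) + 1)) * ∑ i ∈ range (Y.card + 1), f i := by
  rw [wt_int X fun A => f (A ∩ Y).card]
  have e : ∀ τ : ℝ, Eb X τ (fun A => f (A ∩ Y).card) =
      ∑ k ∈ range (Y.card + 1), τ ^ k * (1 - τ) ^ (Y.card - k) * ((Y.card.choose k : ℝ) * f k) := by
    intro τ
    rw [beta_inter hY τ fun A => f A.card, beta_card]
    refine sum_congr rfl fun k _ => ?_
    ring
  simp only [e]
  rw [intervalIntegral.integral_finsetSum fun k _ => (beta_cont _ _ _).intervalIntegrable _ _,
    mul_sum]
  refine sum_congr rfl fun k hk => ?_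
  have hk' : k ≤ Y.card := Nat.lt_succ_iff.1 (mem_range.1 hk)
  rw [intervalIntegral.integral_mul_const, beta_int, Nat.add_sub_cancel' hk',
    Nat.factorial_succ, ← Nat.choose_mul_factorial_mul_factorial hk']
  have h1 : (k.factorial : ℝ) ≠ 0 := by exact_mod_cast k.factorial_ne_zero
  have h2 : ((Y.card - k).factorial : ℝ) ≠ 0 := by
    exact_mod_cast (Y.card - k).factorial_ne_zero
  have h3 : (Y.card.choose k : ℝ) ≠ 0 := by
    exact_mod_cast (Nat.choose_pos hk').ne'
  push_cast
  field_simp

end C

end Pool.Agent.Helper84.TL
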